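import Pool.Agent.helper89.CL.Defs

/-!
# The upper bound: grouping the vertices of a clique
-/

set_option autoImplicit false

namespace Pool.Agent.helper89.CL

open Finset

/-! ### Definable relations -/

/-- Properties of the pattern (adjacencies and equalities) of at most `r` vertices are definable. -/
theorem definable_of_pattern {r n : ℕ} {J : Type} [Fintype J] (hJ : Fintype.card J ≤ r)
    (Q : (J → J → Prop) → (J → J → Prop) → Prop) :
    Definable r fun (G : SimpleGraph (Fin n)) (w : J → Fin n) =>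
      Q (fun x y => G.Adj (w x) (w y)) (fun x y => w x = w y) := by
  classical
  obtain ⟨σ⟩ : Nonempty (J ↪ Fin r) :=
    Function.Embedding.nonempty_of_card_le (by rwa [Fintype.card_fin])
  let lit : (J → J → Prop) × (J → J → Prop) → J × J → Bool → CForm r := fun p z c =>
    if c = true then (if p.1 z.1 z.2 then .adj (σ z.1) (σ z.2) else .not (.adj (σ z.1) (σ z.2)))
    else (if p.2 z.1 z.2 then .eq (σ z.1) (σ z.2) else .not (.eq (σ z.1) (σ z.2)))
  let θ : CForm r := .not (.conj {p : (J → J → Prop) × (J → J → Prop) // Q p.1 p.2} fun p =>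
    .not (.conj (J × J) fun z => .conj Bool (lit p.1 z)))
  refine ⟨Set.univ, fun j => σ j, fun x y h => Subtype.ext (σ.injective h), θ, ?_⟩
  intro G w t ht
  have ht' : ∀ x, t (σ x) = w x := fun x => ht ⟨x, Set.mem_univ _⟩
  have hlit : ∀ (p : (J → J → Prop) × (J → J → Prop)) (z : J × J),
      (∀ c : Bool, (lit p z c).Holds G t) ↔
        ((G.Adj (w z.1) (w z.2) ↔ p.1 z.1 z.2) ∧ (w z.1 = w z.2 ↔ p.2 z.1 z.2)) := by
    intro p z
    rw [Bool.forall_bool]
    have e1 : (lit p z true).Holds G t ↔ (G.Adj (w z.1) (w z.2) ↔ p.1 z.1 z.2) := by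
      by_cases h : p.1 z.1 z.2
      · have : lit p z true = .adj (σ z.1) (σ z.2) := by simp [lit, h]
        rw [this]
        show G.Adj (t (σ z.1)) (t (σ z.2)) ↔ _
        rw [ht', ht']
        simp [h]
      · have : lit p z true = .not (.adj (σ z.1) (σ z.2)) := by simp [lit, h]
        rw [this]
        show ¬ G.Adj (t (σ z.1)) (t (σ z.2)) ↔ _
        rw [ht', ht']
        simp [h]
    have e2 : (lit p z false).Holds G t ↔ (w z.1 = w z.2 ↔ p.2 z.1 z.2) := by
      by_cases h : p.2 z.1 z.2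
      · have : lit p z false = .eq (σ z.1) (σ z.2) := by simp [lit, h]
        rw [this]
        show t (σ z.1) = t (σ z.2) ↔ _
        rw [ht', ht']
        simp [h]
      · have : lit p z false = .not (.eq (σ z.1) (σ z.2)) := by simp [lit, h]
        rw [this]
        show ¬ t (σ z.1) = t (σ z.2) ↔ _
        rw [ht', ht']
        simp [h]
    rw [e1, e2, and_comm]
  show ¬ (∀ p : {p : (J → J → Prop) × (J → J → Prop) // Q p.1 p.2}, ¬ ∀ z : J × J, ∀ c : Bool,
    (lit p.1 z c).Holds G t) ↔ _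
  constructor
  · intro h
    push Not at h
    obtain ⟨⟨p, hp⟩, h⟩ := h
    have h1 : ∀ z : J × J, (G.Adj (w z.1) (w z.2) ↔ p.1 z.1 z.2) ∧
        (w z.1 = w z.2 ↔ p.2 z.1 z.2) := fun z => (hlit p z).1 (h z)
    have e1 : (fun x y => G.Adj (w x) (w y)) = p.1 := by
      funext x y
      exact propext (h1 (x, y)).1
    have e2 : (fun x y => w x = w y) = p.2 := by
      funext x y
      exact propext (h1 (x, y)).2
    rw [e1, e2]
    exact hp
  · intro h h'
    refine h' ⟨(fun x y => G.Adj (w x) (w y), fun x y => w x = w y), h⟩ fun z => ?_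
    exact (hlit _ z).2 ⟨Iff.rfl, Iff.rfl⟩

theorem Definable.congr {r n : ℕ} {J : Type} {P P' : SimpleGraph (Fin n) → (J → Fin n) → Prop}
    (h : Definable r P) (e : ∀ G w, P G w ↔ P' G w) : Definable r P' := by
  have : P = P' := by
    funext G w
    exact propext (e G w)
  rwa [← this]

theorem definable_const {r n : ℕ} {J : Type} (p : Prop) :
    Definable r fun (_ : SimpleGraph (Fin n)) (_ : J → Fin n) => p := by
  classical
  refine ⟨∅, fun j => j.2.elim, fun x => x.2.elim,
    if p then .conj Empty (fun x => x.elim) else .not (.conj Empty (fun x => x.elim)), ?_⟩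
  intro G w t _
  by_cases h : p
  · rw [if_pos h]
    exact ⟨fun _ => h, fun _ x => x.elim⟩
  · rw [if_neg h]
    exact ⟨fun h' => (h' fun x => x.elim).elim, fun h' => absurd h' h⟩

/-! ### Cliques as functions -/

theorem clique_iff {n k : ℕ} {E : Type} [Fintype E] (hE : Fintype.card E = k)
    (G : SimpleGraph (Fin n)) :
    (∃ s : Finset (Fin n), G.IsNClique k s) ↔ ∃ f : E → Fin n, ∀ x y, x ≠ y → G.Adj (f x) (f y) := by
  constructor
  · rintro ⟨s, hs⟩
    have h1 : Fintype.card E = Fintype.card s := by rw [hE, Fintype.card_coe, hs.2]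
    let e := Fintype.equivOfCardEq h1
    refine ⟨fun x => e x, fun x y hxy => hs.1 (e x).2 (e y).2 ?_⟩
    exact fun h => hxy (e.injective (Subtype.ext h))
  · rintro ⟨f, hf⟩
    have hinj : Function.Injective f := by
      intro x y hxy
      by_contra h
      exact (hf x y h).ne hxy
    refine ⟨univ.map ⟨f, hinj⟩, ?_, by rw [card_map, card_univ, hE]⟩
    intro x hx y hy hxy
    rw [mem_coe, mem_map] at hx hy
    obtain ⟨u, -, rfl⟩ := hx
    obtain ⟨v, -, rfl⟩ := hy
    exact hf u v fun h => hxy (by rw [h])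

/-! ### The reduction -/

section construction

variable (n k g b ρ : ℕ)

/-- the number of vertices of a group -/
def dimB : Bool → ℕ
  | false => g
  | true => ρ

/-- the tuple is a clique -/
def Cl {d : ℕ} (G : SimpleGraph (Fin n)) (w : Fin d → Fin n) : Prop :=
  ∀ i j, i ≠ j → G.Adj (w i) (w j)

/-- the universe: groups of vertices that form a clique -/
def UU (G : SimpleGraph (Fin n)) : Type := Σ T : Bool, {w : Fin (dimB g ρ T) → Fin n // Cl n G w}

/-- binary relation symbols, indexed by the tag of the second element -/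
def SS (a : ℕ) : Type := {_S : Bool // a = 2}

/-- the relations -/
def RR (G : SimpleGraph (Fin n)) (a : ℕ) (S : SS a) (u : Fin a → UU n g ρ G) : Prop :=
  ∀ p q : Fin a, (p : ℕ) = 0 → (q : ℕ) = 1 → (u p).1 = false ∧ (u q).1 = S.1 ∧
    ∀ i j, G.Adj ((u p).2.1 i) ((u q).2.1 j)

/-- the pairs of variables -/
def pairs : Finset (Fin (b + 1) × Fin (b + 1)) := univ.filter fun p => p.1 < p.2

theorem card_pairs : 2 * (pairs b).card = (b + 1) * b := by
  have h1 : ((univ : Finset (Fin (b + 1))).offDiag).card = (b + 1) * b := by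
    rw [offDiag_card, card_univ, Fintype.card_fin]
    have : (b + 1) * (b + 1) = (b + 1) * b + (b + 1) := by ring
    omega
  have h2 : (univ : Finset (Fin (b + 1))).offDiag = pairs b ∪ (pairs b).map
      (Equiv.prodComm _ _).toEmbedding := by
    ext ⟨x, y⟩
    simp only [mem_offDiag, mem_univ, true_and, pairs, mem_union, mem_filter, mem_map,
      Equiv.coe_toEmbedding, Equiv.prodComm_apply, Prod.exists, Prod.swap_prod_mk, Prod.mk.injEq]
    constructor
    · intro h
      rcases lt_or_gt_of_ne h with h' | h'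
      · exact Or.inl h'
      · exact Or.inr ⟨y, x, h', rfl, rfl⟩
    · rintro (h | ⟨c, d, h, rfl, rfl⟩)
      · exact h.ne
      · exact h.ne'
  have h3 : Disjoint (pairs b) ((pairs b).map (Equiv.prodComm _ _).toEmbedding) := by
    rw [disjoint_left]
    rintro ⟨x, y⟩ hx hy
    simp only [pairs, mem_filter, mem_univ, true_and] at hx
    rw [mem_map] at hy
    obtain ⟨⟨c, d⟩, h, he⟩ := hy
    simp only [pairs, mem_filter, mem_univ, true_and] at h
    simp only [Equiv.coe_toEmbedding, Equiv.prodComm_apply, Prod.swap_prod_mk,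
      Prod.mk.injEq] at he
    rw [← he.1, ← he.2] at hx
    exact absurd h (not_lt.2 hx.le)
  rw [h2, card_union_of_disjoint h3, card_map] at h1
  omega

/-- the atom of a pair -/
def atom (p : Fin (b + 1) × Fin (b + 1)) : QF SS (b + 1) :=
  .rel 2 ⟨decide ((p.2 : ℕ) = b), rfl⟩ ![p.1, p.2]

/-- the quantifier-free part of the sentence -/
noncomputable def body : QF SS (b + 1) :=
  ((pairs b).toList.map (atom b)).foldr .and (atom b (0, Fin.last b))

theorem foldr_len {Sym : ℕ → Type} {m : ℕ} (φ : QF Sym m) (L : List (QF Sym m))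
    (h : ∀ ψ ∈ L, ψ.len = 3) : (L.foldr .and φ).len = φ.len + 4 * L.length := by
  induction L with
  | nil => rfl
  | cons ψ L ih =>
    show ψ.len + (L.foldr .and φ).len + 1 = _
    rw [ih fun χ hχ => h χ (List.mem_cons_of_mem _ hχ), h ψ List.mem_cons_self, List.length_cons]
    ring

theorem body_len : (body b).len = 2 * ((b + 1) * b) + 3 := by
  unfold body
  rw [foldr_len]
  · rw [List.length_map, length_toList]
    have := card_pairs b
    show 3 + _ = _
    omega
  · intro ψ hψ
    obtain ⟨p, -, rfl⟩ := List.mem_map.1 hψ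
    rfl

theorem foldr_holds {Sym : ℕ → Type} {m : ℕ} {U : Type} (A : ∀ a, Sym a → (Fin a → U) → Prop)
    (x : Fin m → U) (φ : QF Sym m) (L : List (QF Sym m)) :
    (L.foldr .and φ).Holds A x ↔ φ.Holds A x ∧ ∀ ψ ∈ L, ψ.Holds A x := by
  induction L with
  | nil => simp
  | cons ψ L ih =>
    show ψ.Holds A x ∧ (L.foldr .and φ).Holds A x ↔ _
    rw [ih]
    simp only [List.mem_cons, forall_eq_or_imp]
    tauto

/-- the condition expressed by an atom -/
def Cond (G : SimpleGraph (Fin n)) (x : Fin (b + 1) → UU n g ρ G) (i j : Fin (b + 1)) : Prop :=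
  (x i).1 = false ∧ (x j).1 = decide ((j : ℕ) = b) ∧ ∀ p q, G.Adj ((x i).2.1 p) ((x j).2.1 q)

theorem atom_holds (G : SimpleGraph (Fin n)) (x : Fin (b + 1) → UU n g ρ G)
    (p : Fin (b + 1) × Fin (b + 1)) :
    (atom b p).Holds (RR n g ρ G) x ↔ Cond n g b ρ G x p.1 p.2 := by
  unfold atom Cond
  show (∀ q q' : Fin 2, (q : ℕ) = 0 → (q' : ℕ) = 1 → (x (![p.1, p.2] q)).1 = false ∧
    (x (![p.1, p.2] q')).1 = decide ((p.2 : ℕ) = b) ∧
      ∀ i j, G.Adj ((x (![p.1, p.2] q)).2.1 i) ((x (![p.1, p.2] q')).2.1 j)) ↔ _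
  constructor
  · intro h
    exact h 0 1 rfl rfl
  · intro h q q' hq hq'
    have e1 : q = 0 := Fin.ext hq
    have e2 : q' = 1 := Fin.ext hq'
    subst e1
    subst e2
    exact h

theorem body_holds (hb : 1 ≤ b) (G : SimpleGraph (Fin n)) (x : Fin (b + 1) → UU n g ρ G) :
    (body b).Holds (RR n g ρ G) x ↔ ∀ i j, i < j → Cond n g b ρ G x i j := by
  unfold body
  rw [foldr_holds]
  constructor
  · rintro ⟨-, h⟩ i j hij
    have := h (atom b (i, j)) (List.mem_map.2 ⟨(i, j), by simp [pairs, hij], rfl⟩)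
    exact (atom_holds n g b ρ G x (i, j)).1 this
  · intro h
    constructor
    · refine (atom_holds n g b ρ G x _).2 (h _ _ ?_)
      show (0 : Fin (b + 1)) < Fin.last b
      rw [Fin.lt_def]
      exact hb
    · intro ψ hψ
      obtain ⟨p, hp, rfl⟩ := List.mem_map.1 hψ
      rw [mem_toList, pairs, mem_filter] at hp
      exact (atom_holds n g b ρ G x p).2 (h _ _ hp.2)

theorem correct_aux (hb : 1 ≤ b) (hk : b * g + ρ = k) (G : SimpleGraph (Fin n)) :
    (∃ x : Fin (b + 1) → UU n g ρ G, (body b).Holds (RR n g ρ G) x) ↔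
      ∃ s : Finset (Fin n), G.IsNClique k s := by
  have hE : Fintype.card ((Fin b × Fin g) ⊕ Fin ρ) = k := by
    rw [Fintype.card_sum, Fintype.card_prod, Fintype.card_fin, Fintype.card_fin, Fintype.card_fin,
      hk]
  rw [clique_iff hE]
  constructor
  · rintro ⟨x, hx⟩
    rw [body_holds n g b ρ hb] at hx
    have h1 : ∀ i : Fin b, ∃ w : {w : Fin g → Fin n // Cl n G w},
        x i.castSucc = ⟨false, w⟩ := by
      intro i
      have h2 := (hx i.castSucc (Fin.last b) (Fin.castSucc_lt_last i)).1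
      generalize x i.castSucc = z at h2
      obtain ⟨T, w⟩ := z
      simp only at h2
      subst h2
      exact ⟨w, rfl⟩
    have h2 : ∃ w : {w : Fin ρ → Fin n // Cl n G w}, x (Fin.last b) = ⟨true, w⟩ := by
      have h2 := (hx 0 (Fin.last b) (by rw [Fin.lt_def]; exact hb)).2.1
      have h3 : decide (((Fin.last b : Fin (b + 1)) : ℕ) = b) = true := by simp
      rw [h3] at h2
      generalize x (Fin.last b) = z at h2
      obtain ⟨T, w⟩ := z
      simp only at h2
      subst h2
      exact ⟨w, rfl⟩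
    choose w hw using h1
    obtain ⟨w', hw'⟩ := h2
    have hww : ∀ i j : Fin b, i < j → ∀ p q, G.Adj ((w i).1 p) ((w j).1 q) := by
      intro i j hij
      have h3 := (hx i.castSucc j.castSucc (by rwa [Fin.castSucc_lt_castSucc_iff])).2.2
      rw [hw i, hw j] at h3
      exact h3
    have hww' : ∀ i : Fin b, ∀ p q, G.Adj ((w i).1 p) (w'.1 q) := by
      intro i
      have h3 := (hx i.castSucc (Fin.last b) (Fin.castSucc_lt_last i)).2.2
      rw [hw i, hw'] at h3
      exact h3
    refine ⟨Sum.elim (fun p => (w p.1).1 p.2) w'.1, ?_⟩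
    rintro (⟨i, p⟩ | p) (⟨j, q⟩ | q) hne
    · show G.Adj ((w i).1 p) ((w j).1 q)
      rcases lt_trichotomy i j with h | h | h
      · exact hww i j h p q
      · subst h
        refine (w i).2 p q fun h => hne (by rw [h])
      · exact (hww j i h q p).symm
    · exact hww' i p q
    · exact (hww' j q p).symm
    · exact w'.2 p q fun h => hne (by rw [h])
  · rintro ⟨f, hf⟩
    have hc1 : ∀ i : Fin b, Cl n G (fun q : Fin g => f (.inl (i, q))) := fun i p q hpq =>
      hf _ _ fun h' => hpq (by simpa using h')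
    have hc2 : Cl n G (fun q : Fin ρ => f (.inr q)) := fun p q hpq =>
      hf _ _ fun h' => hpq (by simpa using h')
    let x : Fin (b + 1) → UU n g ρ G := fun j =>
      if h : (j : ℕ) < b then ⟨false, fun q => f (.inl (⟨j, h⟩, q)), hc1 ⟨j, h⟩⟩
      else ⟨true, fun q => f (.inr q), hc2⟩
    refine ⟨x, (body_holds n g b ρ hb G x).2 fun i j hij => ?_⟩
    have hi : (i : ℕ) < b := by
      have h1 : (i : ℕ) < j := hij
      have h2 := j.2
      omega
    have e1 : x i = ⟨false, fun q => f (.inl (⟨i, hi⟩, q)), hc1 ⟨i, hi⟩⟩ := dif_pos hi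
    by_cases hj : (j : ℕ) < b
    · have e2 : x j = ⟨false, fun q => f (.inl (⟨j, hj⟩, q)), hc1 ⟨j, hj⟩⟩ := dif_pos hj
      unfold Cond
      rw [e1, e2]
      refine ⟨rfl, by simp [hj.ne], fun p q => hf _ _ fun h' => ?_⟩
      simp only [Sum.inl.injEq, Prod.mk.injEq, Fin.mk.injEq] at h'
      have h1 : (i : ℕ) < j := hij
      omega
    · have e2 : x j = ⟨true, fun q => f (.inr q), hc2⟩ := dif_neg hj
      have h3 : (j : ℕ) = b := by
        have := j.2
        omega
      unfold Cond
      rw [e1, e2]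
      exact ⟨rfl, by simp [h3], fun p q => hf _ _ (by simp)⟩

/-- The reduction with groups of `g` vertices. -/
noncomputable def red (r : ℕ) (hb : 1 ≤ b) (hk : b * g + ρ = k) (hg : 2 * g ≤ r) (hρ : ρ ≤ g) :
    DefinableReduction n k r (2 * (b + 1) ^ 2 + 3) where
  U := UU n g ρ
  Sym := SS
  rel := RR n g ρ
  Tag := Bool
  dim := dimB g ρ
  dom := fun _ G w => Cl n G w
  nm := fun T _ w h => ⟨T, w, h⟩
  surj := fun _ u => ⟨u.1, u.2.1, u.2.2, rfl⟩
  dom_def := by
    intro T
    have hT : Fintype.card (Fin (dimB g ρ T)) ≤ r := by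
      rw [Fintype.card_fin]
      cases T
      · show g ≤ r
        omega
      · show ρ ≤ r
        omega
    exact definable_of_pattern hT fun A _ => ∀ i j, i ≠ j → A i j
  eq_def := by
    intro T T'
    by_cases h : T = T'
    · subst h
      have hT : Fintype.card (Fin (dimB g ρ T) ⊕ Fin (dimB g ρ T)) ≤ r := by
        rw [Fintype.card_sum, Fintype.card_fin]
        cases T
        · show g + g ≤ r
          omega
        · show ρ + ρ ≤ r
          omega
      refine (definable_of_pattern hT fun A E => (∀ i j, i ≠ j → A (.inl i) (.inl j)) ∧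
        (∀ i j, i ≠ j → A (.inr i) (.inr j)) ∧ ∀ i, E (.inl i) (.inr i)).congr ?_
      intro G w
      constructor
      · rintro ⟨h1, h2, h3⟩
        refine ⟨h1, h2, ?_⟩
        have e : w ∘ Sum.inl = w ∘ Sum.inr := funext h3
        have : (⟨w ∘ Sum.inl, h1⟩ : {w : Fin (dimB g ρ T) → Fin n // Cl n G w}) =
          ⟨w ∘ Sum.inr, h2⟩ := Subtype.ext e
        exact congrArg (Sigma.mk T) this
      · rintro ⟨h1, h2, h3⟩
        refine ⟨h1, h2, fun i => ?_⟩
        have h4 := eq_of_heq (Sigma.mk.inj h3).2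
        exact congrFun (congrArg Subtype.val h4) i
    · refine (definable_const False).congr ?_
      intro G w
      constructor
      · exact fun h' => h'.elim
      · rintro ⟨_, _, h3⟩
        exact h (Sigma.mk.inj h3).1
  rel_def := by
    rintro a ⟨S, rfl⟩ T
    have hT : Fintype.card (Σ p : Fin 2, Fin (dimB g ρ (T p))) ≤ r := by
      rw [Fintype.card_sigma, Fin.sum_univ_two, Fintype.card_fin, Fintype.card_fin]
      have hd : ∀ T, dimB g ρ T ≤ g := by
        intro T
        cases T
        · exact le_rfl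
        · exact hρ
      have h1 := hd (T 0)
      have h2 := hd (T 1)
      omega
    refine (definable_of_pattern hT fun A _ =>
      (∀ (p : Fin 2) (i j : Fin (dimB g ρ (T p))), i ≠ j → A ⟨p, i⟩ ⟨p, j⟩) ∧
        T 0 = false ∧ T 1 = S ∧ ∀ i j, A ⟨0, i⟩ ⟨1, j⟩).congr ?_
    intro G w
    constructor
    · rintro ⟨h1, h2, h3, h4⟩
      refine ⟨h1, ?_⟩
      intro p q hp hq
      have e1 : p = 0 := Fin.ext hp
      have e2 : q = 1 := Fin.ext hq
      subst e1
      subst e2
      exact ⟨h2, h3, h4⟩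
    · rintro ⟨h1, h2⟩
      exact ⟨h1, h2 0 1 rfl rfl⟩
  num := fun _ => b + 1
  sen := fun _ => body b
  sen_def := fun m ψ => definable_const _
  len_le := by
    intro G
    rw [body_len]
    have : 2 * (b + 1) ^ 2 = 2 * (b + 1) + 2 * ((b + 1) * b) := by ring
    omega
  correct := correct_aux n k g b ρ hb hk

end construction

/-- **The upper bound.** -/
theorem upper (n : ℕ) {k r : ℕ} (h2 : 2 ≤ r) (hr : r ≤ k) :
    ∃ ℓ : ℕ, Nonempty (DefinableReduction n k r ℓ) ∧ ℓ * r ^ 2 ≤ 44 * k ^ 2 := by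
  have hg : 0 < r / 2 := by omega
  have hk : k / (r / 2) * (r / 2) + k % (r / 2) = k := by
    rw [mul_comm]
    exact Nat.div_add_mod k (r / 2)
  have hb : 1 ≤ k / (r / 2) := by
    rw [Nat.le_div_iff_mul_le hg]
    omega
  refine ⟨_, ⟨red n k (r / 2) (k / (r / 2)) (k % (r / 2)) r hb hk (by omega)
    (Nat.mod_lt _ hg).le⟩, ?_⟩
  set g := r / 2 with hgdef
  set b := k / g with hbdef
  have h3 : r ≤ 3 * g := by omega
  have h4 : b * g ≤ k := Nat.div_mul_le_self k g
  have h5 : 2 * ((b + 1) * g) ≤ 3 * k := by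
    have : 2 * ((b + 1) * g) = 2 * (b * g) + 2 * g := by ring
    omega
  have h6 : 2 * ((b + 1) * r) ≤ 9 * k := by
    have : (b + 1) * r ≤ (b + 1) * (3 * g) := Nat.mul_le_mul_left _ h3
    have h7 : (b + 1) * (3 * g) = 3 * ((b + 1) * g) := by ring
    omega
  have h7 : (2 * ((b + 1) * r)) ^ 2 ≤ (9 * k) ^ 2 := Nat.pow_le_pow_left h6 2
  have h8 : r ^ 2 ≤ k ^ 2 := Nat.pow_le_pow_left hr 2
  have e1 : (2 * ((b + 1) * r)) ^ 2 = 4 * ((b + 1) ^ 2 * r ^ 2) := by ring
  have e2 : (9 * k) ^ 2 = 81 * k ^ 2 := by ring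
  have e3 : (2 * (b + 1) ^ 2 + 3) * r ^ 2 = 2 * ((b + 1) ^ 2 * r ^ 2) + 3 * r ^ 2 := by ring
  rw [e3]
  omega

end Pool.Agent.helper89.CL
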