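import Pool.Agent.helper71.CL.Spec

/-!
# Project cl (MP_447e26_gt): module PRD
-/

set_option autoImplicit false

open MeasureTheory Set Filter Topology
open scoped ENNReal
open Pool.Agent.helper81.CW

noncomputable section

namespace Pool.Agent.CL

theorem PRD_cont (hFAR : FAR_stmt) {n : ℕ} (C : Set (E n)) (hC : IsCompact C)
    (hne : C.Nonempty) : Continuous (far C) := by
  have h : LipschitzWith 1 (far C) := by
    refine LipschitzWith.of_dist_le_mul fun x y => ?_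
    rw [Real.dist_eq, dist_eq_norm, NNReal.coe_one, one_mul]
    exact (hFAR n C hC hne x y).2.2.1
  exact h.continuous

/-- PRD -/
theorem PRD (hFAR : FAR_stmt) (hMAE : MAE_stmt) (hPIN : PIN_stmt) (hSCA : SCA_stmt)
    (hKFA : KFA_stmt) (hJ2 : J2_stmt) : PRD_stmt := by
  intro d e C₁ C₂ α β h₁ h₂ hα hβ hαβ
  obtain ⟨hKc, hKne, hKd, hKf⟩ := hKFA d e C₁ C₂ α β h₁.2.1 h₁.1 h₂.2.1 h₂.1
    (hJ2 d C₁ 1 h₁).1 (hJ2 e C₂ 1 h₂).1 hα hβ hαβ
  obtain ⟨C, hC, hKC, _⟩ := hMAE (d + e) (KK d e α β C₁ C₂) hKc hKne hKd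
  refine ⟨C, hC, fun T hT => ?_⟩
  have hsα : 0 < √α := Real.sqrt_pos.2 hα
  have hsβ : 0 < √β := Real.sqrt_pos.2 hβ
  have hc1 : Measurable (fun u : E d => ENNReal.ofReal (Real.exp (T * α * (1 - far C₁ u ^ 2)))) := by
    refine ENNReal.measurable_ofReal.comp ?_
    refine Continuous.measurable ?_
    have := PRD_cont hFAR C₁ h₁.2.1 h₁.1
    fun_prop
  have hc2 : Measurable (fun u : E e => ENNReal.ofReal (Real.exp (T * β * (1 - far C₂ u ^ 2)))) := by
    refine ENNReal.measurable_ofReal.comp ?_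
    refine Continuous.measurable ?_
    have := PRD_cont hFAR C₂ h₂.2.1 h₂.1
    fun_prop
  have hs1 : Measurable (fun u : E d => (√α)⁻¹ • u) := (measurable_const_smul _)
  have hs2 : Measurable (fun u : E e => (√β)⁻¹ • u) := (measurable_const_smul _)
  have hle : II C T ≤ ∫⁻ x : E (d + e),
      (fun u : E d => ENNReal.ofReal (Real.exp (T * α * (1 - far C₁ ((√α)⁻¹ • u) ^ 2)))) (p1 d e x) *
      (fun v : E e => ENNReal.ofReal (Real.exp (T * β * (1 - far C₂ ((√β)⁻¹ • v) ^ 2)))) (p2 d e x) := by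
    unfold II
    refine lintegral_mono fun x => ?_
    simp only
    rw [← ENNReal.ofReal_mul (Real.exp_nonneg _), ← Real.exp_add]
    refine ENNReal.ofReal_le_ofReal (Real.exp_le_exp.2 ?_)
    have hf := hKf x
    obtain ⟨k, hk, hkf⟩ := (hFAR (d + e) (KK d e α β C₁ C₂) hKc hKne x x).2.1
    have h0 : 0 ≤ far (KK d e α β C₁ C₂) x := by
      rw [← hkf]
      exact norm_nonneg _
    have h1 : far (KK d e α β C₁ C₂) x ≤ far C x := by
      rw [← hkf]
      exact (hFAR (d + e) C hC.2.1 hC.1 x x).1 k (hKC hk)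
    have h2 : far (KK d e α β C₁ C₂) x ^ 2 ≤ far C x ^ 2 := by
      exact pow_le_pow_left₀ h0 h1 2
    have h3 : T * (1 - far C x ^ 2) ≤ T * (1 - far (KK d e α β C₁ C₂) x ^ 2) :=
      mul_le_mul_of_nonneg_left (by linarith) hT
    refine h3.trans (le_of_eq ?_)
    rw [hf]
    have h4 : β = 1 - α := by linarith
    rw [h4]
    ring
  refine hle.trans ?_
  refine (hPIN d e
    (fun u : E d => ENNReal.ofReal (Real.exp (T * α * (1 - far C₁ ((√α)⁻¹ • u) ^ 2))))
    (fun v : E e => ENNReal.ofReal (Real.exp (T * β * (1 - far C₂ ((√β)⁻¹ • v) ^ 2))))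
    (hc1.comp hs1) (hc2.comp hs2)).le.trans ?_
  have e1 := hSCA d (fun u : E d => ENNReal.ofReal (Real.exp (T * α * (1 - far C₁ u ^ 2)))) (√α)
    hc1 hsα
  have e2 := hSCA e (fun u : E e => ENNReal.ofReal (Real.exp (T * β * (1 - far C₂ u ^ 2)))) (√β)
    hc2 hsβ
  rw [e1, e2]
  unfold II
  rw [ENNReal.ofReal_mul (pow_nonneg hsα.le _)]
  refine le_of_eq ?_
  ring

end Pool.Agent.CL
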