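import Pool.Agent.helper89.CL.Defs

/-!
# Graphs which cannot be distinguished by infinitary logic with counting

Vertices `(i, f)` over `i : Fin m`, `f : Fin m → ZMod 2` with `∑_{y ≠ i} f y = 0`; `(i, f)` and
`(j, g)` are adjacent if `i ≠ j` and `f j + g i = τ i j`. For `τ = 0` there is a clique with one
vertex over every `i`, for `τ` = the indicator of one pair there is none; but the two graphs have the
same formulas with `r < m` variables true at all tuples which do not meet both fibres of the pair.
-/

set_option autoImplicit false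

namespace Pool.Agent.helper89.CL

open Finset

/-! ### The pebble game -/

/-- Soundness of the bijective pebble game. -/
theorem holds_of_game {r : ℕ} {V V' : Type} [DecidableEq V] [DecidableEq V']
    (G : SimpleGraph V) (G' : SimpleGraph V') (Z : (Fin r → V) → (Fin r → V') → Prop)
    (hadj : ∀ t t', Z t t' → ∀ p q, G.Adj (t p) (t q) ↔ G'.Adj (t' p) (t' q))
    (heq : ∀ t t', Z t t' → ∀ p q, t p = t q ↔ t' p = t' q)
    (hbij : ∀ t t', Z t t' → ∀ p, ∃ β : V ≃ V', ∀ v,
      Z (Function.update t p v) (Function.update t' p (β v)))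
    (θ : CForm r) : ∀ t t', Z t t' → (θ.Holds G t ↔ θ.Holds G' t') := by
  induction θ with
  | adj p q => exact fun t t' h => hadj t t' h p q
  | eq p q => exact fun t t' h => heq t t' h p q
  | not θ ih => exact fun t t' h => not_congr (ih t t' h)
  | conj ι θ ih => exact fun t t' h => forall_congr' fun i => ih i t t' h
  | atLeast c p θ ih =>
    intro t t' h
    obtain ⟨β, hβ⟩ := hbij t t' h p
    constructor
    · rintro ⟨s, hs, hv⟩
      refine ⟨s.map β.toEmbedding, by rw [card_map, hs], ?_⟩
      intro v hv'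
      obtain ⟨u, hu, rfl⟩ := mem_map.1 hv'
      exact (ih _ _ (hβ u)).1 (hv u hu)
    · rintro ⟨s, hs, hv⟩
      refine ⟨s.map β.symm.toEmbedding, by rw [card_map, hs], ?_⟩
      intro v hv'
      obtain ⟨u, hu, rfl⟩ := mem_map.1 hv'
      have h1 := hβ (β.symm u)
      rw [Equiv.apply_symm_apply] at h1
      exact (ih _ _ h1).2 (hv u hu)

/-- Invariance under isomorphisms. -/
theorem holds_iso {r : ℕ} {V V' : Type} [DecidableEq V] [DecidableEq V'] (e : V ≃ V')
    (G' : SimpleGraph V') (θ : CForm r) (t : Fin r → V) :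
    θ.Holds (G'.comap e) t ↔ θ.Holds G' (fun p => e (t p)) := by
  refine holds_of_game (G'.comap e) G' (fun t t' => ∀ p, t' p = e (t p)) ?_ ?_ ?_ θ _ _
    (fun _ => rfl)
  · intro t t' h p q
    rw [h, h]
    rfl
  · intro t t' h p q
    rw [h, h, e.injective.eq_iff]
  · intro t t' h p
    refine ⟨e, fun v q => ?_⟩
    by_cases hq : q = p
    · subst hq
      simp
    · rw [Function.update_of_ne hq, Function.update_of_ne hq, h]

/-! ### The graphs -/

section graphs

variable {m a b : ℕ}

/-- The vertices: the gadget, `a` universal vertices, `b` isolated vertices. -/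
abbrev VV (m a b : ℕ) : Type := (Fin m × (Fin m → ZMod 2)) ⊕ (Fin a ⊕ Fin b)

/-- The labels which occur over `i`. -/
def Val (i : Fin m) (f : Fin m → ZMod 2) : Prop := ∑ y ∈ univ.erase i, f y = 0

/-- The adjacency relation. -/
def Ad (τ : Fin m → Fin m → ZMod 2) : VV m a b → VV m a b → Prop
  | .inl (i, f), .inl (j, g) => i ≠ j ∧ Val i f ∧ Val j g ∧ f j + g i = τ i j
  | .inl _, .inr (.inl _) => True
  | .inr (.inl _), .inl _ => True
  | .inr (.inl u), .inr (.inl v) => u ≠ v
  | _, _ => False

/-- The graph with twist `τ`. -/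
def HG (τ : Fin m → Fin m → ZMod 2) (hτ : ∀ i j, τ i j = τ j i) : SimpleGraph (VV m a b) where
  Adj := Ad τ
  symm := ⟨by
    rintro (⟨i, f⟩ | u | u) (⟨j, g⟩ | v | v) h
    · exact ⟨h.1.symm, h.2.2.1, h.2.1, by rw [add_comm, h.2.2.2, hτ]⟩
    · trivial
    · exact h.elim
    · trivial
    · exact h.symm
    · exact h.elim
    · exact h.elim
    · exact h.elim
    · exact h.elim⟩
  loopless := ⟨by
    rintro (⟨i, f⟩ | u | u) h
    · exact h.1 rfl
    · exact h rfl
    · exact h⟩

/-- The twist at one pair. -/
def Dd (i j : Fin m) : Fin m → Fin m → ZMod 2 := fun x y =>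
  if (x = i ∧ y = j) ∨ (x = j ∧ y = i) then 1 else 0

theorem Dd_symm (i j x y : Fin m) : Dd i j x y = Dd i j y x := by
  unfold Dd
  congr 1
  apply propext
  tauto

theorem Dd_comm (i j : Fin m) : Dd i j = Dd j i := by
  funext x y
  unfold Dd
  congr 1
  apply propext
  tauto

/-- The flip by `c`. -/
def fl (c : Fin m → Fin m → ZMod 2) : VV m a b ≃ VV m a b where
  toFun v := match v with
    | .inl (i, f) => .inl (i, f + c i)
    | .inr u => .inr u
  invFun v := match v with
    | .inl (i, f) => .inl (i, f - c i)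
    | .inr u => .inr u
  left_inv := by
    rintro (⟨i, f⟩ | u)
    · simp
    · rfl
  right_inv := by
    rintro (⟨i, f⟩ | u)
    · simp
    · rfl

/-- The invariant of the strategy: up to a flip the two graphs differ in the twist of one pair
`{i, j}`, and no pebble is over `i`. -/
def ZZ {r : ℕ} (τ τ' : Fin m → Fin m → ZMod 2) (t t' : Fin r → VV m a b) : Prop :=
  ∃ (c : Fin m → Fin m → ZMod 2) (i j : Fin m), i ≠ j ∧ (∀ x, ∑ y ∈ univ.erase x, c x y = 0) ∧
    (∀ x y, x ≠ y → τ' x y = τ x y + c x y + c y x + Dd i j x y) ∧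
    (∀ p, t' p = fl c (t p)) ∧ ∀ p f, t p ≠ .inl (i, f)

theorem fl_val (c : Fin m → Fin m → ZMod 2) (hc : ∀ x, ∑ y ∈ univ.erase x, c x y = 0) (i : Fin m)
    (f : Fin m → ZMod 2) : Val i (f + c i) ↔ Val i f := by
  unfold Val
  have h : ∑ y ∈ univ.erase i, (f + c i) y = ∑ y ∈ univ.erase i, f y := by
    simp only [Pi.add_apply]
    rw [sum_add_distrib, hc, add_zero]
  rw [h]

theorem zmod2 (x : ZMod 2) : x + x = 0 := by
  revert x
  decide

theorem ZZ_adj {r : ℕ} {τ τ' : Fin m → Fin m → ZMod 2} (t t' : Fin r → VV m a b)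
    (h : ZZ τ τ' t t') (p q : Fin r) : Ad τ (t p) (t q) ↔ Ad τ' (t' p) (t' q) := by
  obtain ⟨c, i, j, hij, hc, hτ, ht, hi⟩ := h
  rw [ht, ht]
  have hp := hi p
  have hq := hi q
  generalize t p = u at hp
  generalize t q = v at hq
  rcases u with ⟨x, f⟩ | u | u <;> rcases v with ⟨y, g⟩ | v | v
  · show (x ≠ y ∧ Val x f ∧ Val y g ∧ f y + g x = τ x y) ↔
      (x ≠ y ∧ Val x (f + c x) ∧ Val y (g + c y) ∧ (f + c x) y + (g + c y) x = τ' x y)
    rw [fl_val c hc, fl_val c hc]
    have hx : x ≠ i := fun h => hp f (by rw [h])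
    have hy : y ≠ i := fun h => hq g (by rw [h])
    refine and_congr_right fun hxy => and_congr_right fun _ => and_congr_right fun _ => ?_
    rw [hτ x y hxy]
    have hD : Dd i j x y = 0 := by
      unfold Dd
      rw [if_neg]
      rintro (⟨h1, -⟩ | ⟨-, h1⟩)
      · exact hx h1
      · exact hy h1
    rw [hD, add_zero, Pi.add_apply, Pi.add_apply]
    constructor
    · intro h
      rw [← h]
      ring
    · intro h
      have : f y + g x + (c x y + c y x) = τ x y + (c x y + c y x) := by
        rw [← add_assoc (τ x y), ← h]; ring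
      exact add_right_cancel this
  all_goals exact Iff.rfl

theorem ZZ_eq {r : ℕ} {τ τ' : Fin m → Fin m → ZMod 2} (t t' : Fin r → VV m a b)
    (h : ZZ τ τ' t t') (p q : Fin r) : t p = t q ↔ t' p = t' q := by
  obtain ⟨c, i, j, -, -, -, ht, -⟩ := h
  rw [ht, ht, (fl c).injective.eq_iff]

theorem fl_update {r : ℕ} (c : Fin m → Fin m → ZMod 2) (t t' : Fin r → VV m a b) (p : Fin r)
    (v : VV m a b) (h : ∀ q, q ≠ p → t' q = fl c (t q)) (q : Fin r) :
    Function.update t' p (fl c v) q = fl c (Function.update t p v q) := by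
  by_cases hq : q = p
  · subst hq
    simp
  · rw [Function.update_of_ne hq, Function.update_of_ne hq, h q hq]

/-- If both ends of the pair are free then every pebble can be placed. -/
theorem ZZ_place {r : ℕ} {τ τ' : Fin m → Fin m → ZMod 2} (t t' : Fin r → VV m a b) (p : Fin r)
    (c : Fin m → Fin m → ZMod 2) (i j : Fin m) (hij : i ≠ j)
    (hc : ∀ x, ∑ y ∈ univ.erase x, c x y = 0)
    (hτ : ∀ x y, x ≠ y → τ' x y = τ x y + c x y + c y x + Dd i j x y)
    (ht : ∀ q, q ≠ p → t' q = fl c (t q)) (hi : ∀ q, q ≠ p → ∀ f, t q ≠ .inl (i, f))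
    (hj : ∀ q, q ≠ p → ∀ f, t q ≠ .inl (j, f)) :
    ∀ v, ZZ τ τ' (Function.update t p v) (Function.update t' p (fl c v)) := by
  intro v
  by_cases hv : ∃ f, v = .inl (i, f)
  · obtain ⟨f₀, rfl⟩ := hv
    refine ⟨c, j, i, hij.symm, hc, ?_, fl_update c t t' p _ ht, ?_⟩
    · rw [Dd_comm j i]
      exact hτ
    · intro q f
      by_cases hq : q = p
      · subst hq
        rw [Function.update_self]
        intro h
        rw [Sum.inl.injEq, Prod.mk.injEq] at h
        exact hij h.1
      · rw [Function.update_of_ne hq]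
        exact hj q hq f
  · refine ⟨c, i, j, hij, hc, hτ, fl_update c t t' p _ ht, ?_⟩
    intro q f
    by_cases hq : q = p
    · subst hq
      rw [Function.update_self]
      exact fun h => hv ⟨f, h⟩
    · rw [Function.update_of_ne hq]
      exact hi q hq f

/-- The base points of the pebbles other than `p`. -/
noncomputable def Bs {r : ℕ} (t : Fin r → VV m a b) (p : Fin r) : Finset (Fin m) :=
  (univ.erase p).biUnion fun q => match t q with
    | .inl (i, _) => {i}
    | .inr _ => ∅

theorem mem_Bs {r : ℕ} (t : Fin r → VV m a b) (p : Fin r) (i : Fin m) :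
    i ∈ Bs t p ↔ ∃ q, q ≠ p ∧ ∃ f, t q = .inl (i, f) := by
  unfold Bs
  simp only [mem_biUnion, mem_erase, mem_univ, and_true]
  refine exists_congr fun q => and_congr_right fun _ => ?_
  rcases t q with ⟨x, f⟩ | u
  · simp only [mem_singleton, Sum.inl.injEq, Prod.mk.injEq, exists_and_left]
    constructor
    · rintro rfl
      exact ⟨rfl, f, rfl⟩
    · rintro ⟨h, -⟩
      exact h.symm
  · simp

theorem card_Bs {r : ℕ} (t : Fin r → VV m a b) (p : Fin r) : (Bs t p).card + 1 ≤ r := by
  have h1 : (Bs t p).card ≤ (univ.erase p).card * 1 := by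
    unfold Bs
    refine card_biUnion_le_card_mul _ _ _ fun q _ => ?_
    rcases t q with ⟨x, f⟩ | u <;> simp
  have h2 : (univ.erase p : Finset (Fin r)).card = r - 1 := by
    rw [card_erase_of_mem (mem_univ p), card_univ, Fintype.card_fin]
  have h3 : 0 < r := p.pos
  omega

theorem ZZ_bij {r : ℕ} (hr : r < m) {τ τ' : Fin m → Fin m → ZMod 2} (t t' : Fin r → VV m a b)
    (h : ZZ τ τ' t t') (p : Fin r) : ∃ β : VV m a b ≃ VV m a b, ∀ v,
      ZZ τ τ' (Function.update t p v) (Function.update t' p (β v)) := by
  obtain ⟨c, i, j, hij, hc, hτ, ht, hi⟩ := h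
  by_cases hj : j ∈ Bs t p
  · -- move the twist from `{i, j}` to `{i, k}`
    have hcard : (insert i (Bs t p)).card < m := by
      have h1 := card_insert_le i (Bs t p)
      have h2 := card_Bs t p
      omega
    obtain ⟨k, hk⟩ : ∃ k, k ∉ insert i (Bs t p) := by
      by_contra hcon
      push Not at hcon
      have h3 : insert i (Bs t p) = univ := by
        ext x
        simp only [hcon x, mem_univ]
      rw [h3, card_univ, Fintype.card_fin] at hcard
      exact lt_irrefl _ hcard
    rw [mem_insert, not_or] at hk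
    have hkj : k ≠ j := fun h => hk.2 (h ▸ hj)
    set c' : Fin m → Fin m → ZMod 2 := fun x y =>
      c x y + (if x = i ∧ y = j then 1 else 0) + (if x = i ∧ y = k then 1 else 0) with hc'
    refine ⟨fl c', ZZ_place t t' p c' i k (Ne.symm hk.1) ?_ ?_ ?_ ?_ ?_⟩
    · intro x
      rw [hc']
      simp only
      rw [sum_add_distrib, sum_add_distrib, hc, zero_add]
      by_cases hx : x = i
      · subst hx
        have e1 : ∑ y ∈ univ.erase x, (if x = x ∧ y = j then (1 : ZMod 2) else 0) = 1 := by
          simp only [true_and]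
          rw [sum_ite_eq']
          rw [if_pos (mem_erase.2 ⟨hij.symm, mem_univ _⟩)]
        have e2 : ∑ y ∈ univ.erase x, (if x = x ∧ y = k then (1 : ZMod 2) else 0) = 1 := by
          simp only [true_and]
          rw [sum_ite_eq']
          rw [if_pos (mem_erase.2 ⟨hk.1, mem_univ _⟩)]
        rw [e1, e2]
        decide
      · simp [hx]
    · intro x y hxy
      rw [hτ x y hxy, hc']
      simp only
      unfold Dd
      by_cases hxi : x = i
      · subst hxi
        have hyx : y ≠ x := hxy.symm
        by_cases hyj : y = j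
        · subst hyj
          simp [hyx, hkj.symm, hkj, hxy]
          ring_nf
        · by_cases hyk : y = k
          · subst hyk
            simp [hyx, hyj, hxy]
            ring_nf
            have h2 : (2 : ZMod 2) = 0 := by decide
            rw [h2]
            ring
          · simp [hyx, hyj, hyk, hxy]
      · by_cases hyi : y = i
        · subst hyi
          by_cases hxj : x = j
          · subst hxj
            simp [hxi, hkj.symm, hkj]
            ring_nf
          · by_cases hxk : x = k
            · subst hxk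
              simp [hxi, hxj]
              ring_nf
              have h2 : (2 : ZMod 2) = 0 := by decide
              rw [h2]
              ring
            · simp [hxi, hxj, hxk]
        · simp [hxi, hyi]
    · intro q hq
      rw [ht q]
      have h1 := hi q
      generalize t q = u at h1
      rcases u with ⟨x, f⟩ | u
      · have hx : x ≠ i := fun h => h1 f (by rw [h])
        show (Sum.inl (x, f + c x) : VV m a b) = Sum.inl (x, f + c' x)
        have e : c' x = c x := by
          funext y
          simp [hc', hx]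
        rw [e]
      · rfl
    · exact fun q _ f => hi q f
    · intro q hq f hf
      exact hk.2 ((mem_Bs t p k).2 ⟨q, hq, f, hf⟩)
  · refine ⟨fl c, ZZ_place t t' p c i j hij hc hτ (fun q _ => ht q) (fun q _ f => hi q f) ?_⟩
    intro q hq f hf
    exact hj ((mem_Bs t p j).2 ⟨q, hq, f, hf⟩)

end graphs

end Pool.Agent.helper89.CL
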