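import Pool.Agent.helper89.CL.Lower

/-!
# Counting the pairs which a sentence can test
-/

set_option autoImplicit false

namespace Pool.Agent.helper89.CL

open Finset

section cover

variable {m a b n r : ℕ}

/-- A definable relation, at given vertices, distinguishes the two graphs for few pairs only. -/
theorem definable_cover {J : Type} {P : SimpleGraph (Fin n) → (J → Fin n) → Prop}
    (hP : Definable r P) (hr : r < m) (e : Fin n ≃ VV m a b) (w : J → Fin n) (v₀ : Fin n) :
    ∃ C : Finset (Fin m × Fin m), C.card ≤ r * (r - 1) ∧ (IsEmpty J → C = ∅) ∧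
      ∀ i j, i ≠ j → (i, j) ∉ C → (P (G0 e) w ↔ P (G1 e i j) w) := by
  classical
  obtain ⟨D, σ, hσ, θ, hθ⟩ := hP
  haveI : Finite D := Finite.of_injective σ hσ
  haveI : Fintype D := Fintype.ofFinite D
  -- base points
  let W : Finset (Fin m) := univ.biUnion fun j : D => match e (w j) with
    | .inl (i, _) => {i}
    | .inr _ => ∅
  have hW : ∀ i, i ∈ W ↔ ∃ j : D, ∃ f, e (w j) = .inl (i, f) := by
    intro i
    simp only [W, mem_biUnion, mem_univ, true_and]
    refine exists_congr fun j => ?_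
    rcases e (w j) with ⟨x, f⟩ | u
    · simp only [mem_singleton, Sum.inl.injEq, Prod.mk.injEq, exists_and_left]
      constructor
      · rintro rfl
        exact ⟨rfl, f, rfl⟩
      · rintro ⟨h, -⟩
        exact h.symm
    · simp
  have hcD : Fintype.card D ≤ r := by
    have := Fintype.card_le_of_injective σ hσ
    rwa [Fintype.card_fin] at this
  have hcW : W.card ≤ r := by
    have h1 : W.card ≤ (univ : Finset D).card * 1 := by
      refine card_biUnion_le_card_mul _ _ _ fun j _ => ?_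
      rcases e (w j) with ⟨x, f⟩ | u <;> simp
    rw [card_univ, mul_one] at h1
    exact h1.trans hcD
  refine ⟨W.offDiag, ?_, ?_, ?_⟩
  · rw [offDiag_card]
    have h1 : W.card * W.card - W.card = W.card * (W.card - 1) := by
      rw [Nat.mul_sub, mul_one]
    rw [h1]
    exact Nat.mul_le_mul hcW (by omega)
  · intro hJ
    have : W = ∅ := by
      rw [eq_empty_iff_forall_notMem]
      intro i hi
      obtain ⟨j, -⟩ := (hW i).1 hi
      exact hJ.false j.1
    rw [this]
    rfl
  · intro i j hij hC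
    have hC' : ¬ (i ∈ W ∧ j ∈ W) := fun h => hC (mem_offDiag.2 ⟨h.1, h.2, hij⟩)
    let c : Fin n := if h : Nonempty D then w h.some else v₀
    let t : Fin r → Fin n := fun p => if h : ∃ j : D, σ j = p then w h.choose else c
    have ht : ∀ j : D, t (σ j) = w j := by
      intro j
      have h : ∃ j' : D, σ j' = σ j := ⟨j, rfl⟩
      have h1 : t (σ j) = w h.choose := dif_pos h
      rw [h1, hσ h.choose_spec]
    rw [← hθ (G0 e) w t ht, ← hθ (G1 e i j) w t ht]
    refine transfer hr e i j hij θ t ?_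
    rintro ⟨⟨p, f, hp⟩, ⟨q, g, hq⟩⟩
    by_cases hD : Nonempty D
    · have hmem : ∀ p, ∃ j : D, t p = w j := by
        intro p
        by_cases h : ∃ j : D, σ j = p
        · exact ⟨h.choose, dif_pos h⟩
        · refine ⟨hD.some, ?_⟩
          have h1 : t p = c := dif_neg h
          rw [h1]
          exact dif_pos hD
      obtain ⟨j1, h1⟩ := hmem p
      obtain ⟨j2, h2⟩ := hmem q
      refine hC' ⟨(hW i).2 ⟨j1, f, ?_⟩, (hW j).2 ⟨j2, g, ?_⟩⟩
      · rw [← h1]; exact hp
      · rw [← h2]; exact hq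
    · have hconst : ∀ p, t p = v₀ := by
        intro p
        have h1 : t p = c := dif_neg fun h => hD ⟨h.choose⟩
        rw [h1]
        exact dif_neg hD
      have hp' : e (t p) = .inl (i, f) := hp
      have hq' : e (t q) = .inl (j, g) := hq
      rw [hconst] at hp' hq'
      rw [hp'] at hq'
      simp only [Sum.inl.injEq, Prod.mk.injEq] at hq'
      exact hij hq'.1

end cover

section lower

variable {n k r ℓ m a b : ℕ}

/-- The atoms of a quantifier-free formula test few pairs. -/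
theorem qf_cover (R : DefinableReduction n k r ℓ) (hr : r < m) (e : Fin n ≃ VV m a b)
    (v₀ : Fin n) {M : ℕ} (T : Fin M → R.Tag) (w : ∀ p, Fin (R.dim (T p)) → Fin n)
    (h₀ : ∀ p, R.dom (T p) (G0 e) (w p)) (ψ : QF R.Sym M) :
    ∃ C : Finset (Fin m × Fin m), C.card ≤ ψ.len * (r * (r - 1)) ∧
      ∀ i j, i ≠ j → (i, j) ∉ C → ∀ h₁ : ∀ p, R.dom (T p) (G1 e i j) (w p),
        (ψ.Holds (R.rel (G0 e)) (fun p => R.nm (T p) (G0 e) (w p) (h₀ p)) ↔
          ψ.Holds (R.rel (G1 e i j)) (fun p => R.nm (T p) (G1 e i j) (w p) (h₁ p))) := by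
  classical
  induction ψ with
  | fls => exact ⟨∅, by simp, fun i j _ _ _ => Iff.rfl⟩
  | eq p q =>
    obtain ⟨C, hC, -, hC2⟩ := definable_cover (R.eq_def (T p) (T q)) hr e
      (Sum.elim (w p) (w q)) v₀
    refine ⟨C, ?_, ?_⟩
    · refine hC.trans ?_
      show _ ≤ 3 * _
      omega
    · intro i j hij hn h₁
      have h2 := hC2 i j hij hn
      constructor
      · intro h3
        obtain ⟨_, _, h4⟩ := h2.1 ⟨h₀ p, h₀ q, h3⟩
        exact h4
      · intro h3
        obtain ⟨_, _, h4⟩ := h2.2 ⟨h₁ p, h₁ q, h3⟩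
        exact h4
  | rel c S v =>
    obtain ⟨C, hC, -, hC2⟩ := definable_cover (R.rel_def c S (fun p => T (v p))) hr e
      (fun x => w (v x.1) x.2) v₀
    refine ⟨C, ?_, ?_⟩
    · refine hC.trans ?_
      show _ ≤ (c + 1) * _
      exact Nat.le_mul_of_pos_left _ (Nat.succ_pos c)
    · intro i j hij hn h₁
      have h2 := hC2 i j hij hn
      constructor
      · intro h3
        obtain ⟨_, h4⟩ := h2.1 ⟨fun p => h₀ (v p), h3⟩
        exact h4
      · intro h3
        obtain ⟨_, h4⟩ := h2.2 ⟨fun p => h₁ (v p), h3⟩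
        exact h4
  | not φ ih =>
    obtain ⟨C, hC, hC2⟩ := ih
    refine ⟨C, hC.trans (Nat.mul_le_mul_right _ (Nat.le_succ _)), ?_⟩
    intro i j hij hn h₁
    exact not_congr (hC2 i j hij hn h₁)
  | and φ ψ ih1 ih2 =>
    obtain ⟨C, hC, hC2⟩ := ih1
    obtain ⟨C', hC', hC2'⟩ := ih2
    refine ⟨C ∪ C', ?_, ?_⟩
    · refine (card_union_le _ _).trans ?_
      show _ ≤ (φ.len + ψ.len + 1) * _
      rw [add_mul, add_mul]
      omega
    · intro i j hij hn h₁
      rw [mem_union, not_or] at hn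
      exact and_congr (hC2 i j hij hn.1 h₁) (hC2' i j hij hn.2 h₁)
  | or φ ψ ih1 ih2 =>
    obtain ⟨C, hC, hC2⟩ := ih1
    obtain ⟨C', hC', hC2'⟩ := ih2
    refine ⟨C ∪ C', ?_, ?_⟩
    · refine (card_union_le _ _).trans ?_
      show _ ≤ (φ.len + ψ.len + 1) * _
      rw [add_mul, add_mul]
      omega
    · intro i j hij hn h₁
      rw [mem_union, not_or] at hn
      exact or_congr (hC2 i j hij hn.1 h₁) (hC2' i j hij hn.2 h₁)
  | imp φ ψ ih1 ih2 =>
    obtain ⟨C, hC, hC2⟩ := ih1
    obtain ⟨C', hC', hC2'⟩ := ih2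
    refine ⟨C ∪ C', ?_, ?_⟩
    · refine (card_union_le _ _).trans ?_
      show _ ≤ (φ.len + ψ.len + 1) * _
      rw [add_mul, add_mul]
      omega
    · intro i j hij hn h₁
      rw [mem_union, not_or] at hn
      exact imp_congr (hC2 i j hij hn.1 h₁) (hC2' i j hij hn.2 h₁)

theorem QF.len_pos {Sym : ℕ → Type} {M : ℕ} (ψ : QF Sym M) : 1 ≤ ψ.len := by
  cases ψ <;> simp [QF.len]

/-- **The lower bound**, for the graphs of the construction. -/
theorem lower_aux (R : DefinableReduction n (m + a) r ℓ) (hr : r < m) (e : Fin n ≃ VV m a b)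
    (v₀ : Fin n) : m * (m - 1) ≤ ℓ * (r * (r - 1)) := by
  classical
  by_contra hcon
  push Not at hcon
  obtain ⟨x, hx⟩ := (R.correct (G0 e)).2 (G0_clique e)
  have hname : ∀ p, ∃ T w h, R.nm T (G0 e) w h = x p := fun p => R.surj (G0 e) (x p)
  choose T w h₀ hnm using hname
  obtain ⟨C, hC, hC2⟩ := qf_cover R hr e v₀ T w h₀ (R.sen (G0 e))
  obtain ⟨Cs, -, hCs, hCs2⟩ := definable_cover (R.sen_def (R.num (G0 e)) (R.sen (G0 e))) hr e
    (fun x => x.elim) v₀
  have hdom : ∀ p, ∃ C : Finset (Fin m × Fin m), C.card ≤ r * (r - 1) ∧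
      ∀ i j, i ≠ j → (i, j) ∉ C → (R.dom (T p) (G0 e) (w p) ↔ R.dom (T p) (G1 e i j) (w p)) := by
    intro p
    obtain ⟨C, h1, -, h2⟩ := definable_cover (R.dom_def (T p)) hr e (w p) v₀
    exact ⟨C, h1, h2⟩
  choose Cd hCd hCd2 using hdom
  have hCs' : Cs = ∅ := hCs inferInstance
  subst hCs'
  have hcard : (C ∪ univ.biUnion Cd).card ≤ ℓ * (r * (r - 1)) := by
    have h1 : (univ.biUnion Cd).card ≤ R.num (G0 e) * (r * (r - 1)) := by
      have := card_biUnion_le_card_mul (univ : Finset (Fin (R.num (G0 e)))) Cd (r * (r - 1))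
        fun p _ => hCd p
      rwa [card_univ, Fintype.card_fin] at this
    have h2 := R.len_le (G0 e)
    calc (C ∪ univ.biUnion Cd).card ≤ C.card + (univ.biUnion Cd).card := card_union_le _ _
      _ ≤ (R.sen (G0 e)).len * (r * (r - 1)) + R.num (G0 e) * (r * (r - 1)) := add_le_add hC h1
      _ = ((R.sen (G0 e)).len + R.num (G0 e)) * (r * (r - 1)) := by rw [add_mul]
      _ ≤ ℓ * (r * (r - 1)) := Nat.mul_le_mul_right _ (by omega)
  have hoff : (univ : Finset (Fin m)).offDiag.card = m * (m - 1) := by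
    rw [offDiag_card, card_univ, Fintype.card_fin, Nat.mul_sub, mul_one]
  obtain ⟨⟨i, j⟩, hij, hn⟩ : ∃ q ∈ (univ : Finset (Fin m)).offDiag, q ∉ C ∪ univ.biUnion Cd := by
    by_contra h
    push Not at h
    have := card_le_card (show (univ : Finset (Fin m)).offDiag ⊆ C ∪ univ.biUnion Cd from
      fun q hq => h q hq)
    omega
  have hij' : i ≠ j := (mem_offDiag.1 hij).2.2
  rw [mem_union, not_or] at hn
  have hdom' : ∀ p, R.dom (T p) (G1 e i j) (w p) := by
    intro p
    refine (hCd2 p i j hij' fun h => hn.2 ?_).1 (h₀ p)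
    exact mem_biUnion.2 ⟨p, mem_univ _, h⟩
  have hh := (hC2 i j hij' hn.1 hdom').1 (by
    have : (fun p => R.nm (T p) (G0 e) (w p) (h₀ p)) = x := funext hnm
    rw [this]
    exact hx)
  have hsen := (hCs2 i j hij' (by simp)).1 rfl
  have key : ∀ s : Σ M, QF R.Sym M, s = ⟨R.num (G0 e), R.sen (G0 e)⟩ →
      ∃ y : Fin s.1 → R.U (G1 e i j), s.2.Holds (R.rel (G1 e i j)) y := by
    rintro _ rfl
    exact ⟨_, hh⟩
  obtain ⟨s, hs⟩ := (R.correct (G1 e i j)).1 (key ⟨_, _⟩ hsen)
  exact G1_no_clique e i j hij' s hs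

/-- **The lower bound.** -/
theorem lower {n k r ℓ k₀ : ℕ} (R : DefinableReduction n k r ℓ) (h1 : k₀ ≤ k)
    (h2 : k₀ * 2 ^ k₀ + k ≤ n) : k₀ * (k₀ - 1) ≤ ℓ * (r * (r - 1)) := by
  rcases Nat.lt_or_ge r k₀ with hr | hr
  · obtain ⟨a, rfl⟩ := Nat.exists_eq_add_of_le h1
    have hcard : Fintype.card (VV k₀ a (n - (k₀ * 2 ^ k₀ + a))) = n := by
      simp only [VV, Fintype.card_sum, Fintype.card_prod, Fintype.card_fin, Fintype.card_fun,
        ZMod.card]
      omega
    have hn : 0 < n := by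
      have : 0 < k₀ * 2 ^ k₀ := Nat.mul_pos (by omega) (by positivity)
      omega
    exact lower_aux R hr (Fintype.equivFinOfCardEq hcard).symm ⟨0, hn⟩
  · have h3 : 1 ≤ ℓ := by
      have := R.len_le ⊥
      have := QF.len_pos (R.sen ⊥)
      omega
    calc k₀ * (k₀ - 1) ≤ r * (r - 1) := Nat.mul_le_mul hr (by omega)
      _ = 1 * (r * (r - 1)) := (one_mul _).symm
      _ ≤ ℓ * (r * (r - 1)) := Nat.mul_le_mul_right _ h3

end lower

end Pool.Agent.helper89.CL
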