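import Mathlib

/-!
# Reductions from cliques to `p-MC(Σ₁)` definable in infinitary logic with counting: definitions

* `CForm r`: formulas of the infinitary logic with counting quantifiers and `r` variables over the
  vocabulary of graphs (`C^r_{∞ω}` in finite model theory);
* `Definable r P`: the relation `P G w` of a graph `G` and a tuple `w` of vertices is defined by such
  a formula;
* `QF`: quantifier-free formulas over an arbitrary relational vocabulary, with their length;
* `DefinableReduction n k r ℓ`: reductions from the `k`-clique problem on graphs with `n` vertices to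
  model checking of `Σ₁`-sentences of length at most `ℓ`, given by an interpretation in the logic
  with `r` variables.
-/

set_option autoImplicit false

namespace Pool.Agent.helper89.CL

/-- Formulas of the infinitary logic with counting quantifiers over the vocabulary of graphs, in the
variables `x p`, `p : Fin r`: `x p ~ x q`, `x p = x q`, negation, conjunctions over arbitrary (also
infinite) index types, and the quantifiers `there are at least c vertices x p such that θ`. -/
inductive CForm (r : ℕ) : Type 1
  | adj (p q : Fin r) : CForm r
  | eq (p q : Fin r) : CForm r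
  | not (θ : CForm r) : CForm r
  | conj (ι : Type) (θ : ι → CForm r) : CForm r
  | atLeast (c : ℕ) (p : Fin r) (θ : CForm r) : CForm r

/-- Truth of a formula in the graph `G` under the assignment `t` of vertices to the variables. -/
def CForm.Holds {r : ℕ} {V : Type} [DecidableEq V] (G : SimpleGraph V) :
    CForm r → (Fin r → V) → Prop
  | adj p q, t => G.Adj (t p) (t q)
  | eq p q, t => t p = t q
  | not θ, t => ¬ θ.Holds G t
  | conj ι θ, t => ∀ i : ι, (θ i).Holds G t
  | atLeast c p θ, t => ∃ s : Finset V, s.card = c ∧ ∀ v ∈ s, θ.Holds G (Function.update t p v)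

/-- The relation `P G w` between graphs `G` on `n` vertices and tuples `w` of vertices, indexed by
`J`, is definable with `r` variables: there are a set `D` of (at most `r`) indices, different
variables `x (σ j)`, `j ∈ D`, among `x p`, `p : Fin r`, and one formula which for all graphs `G` and
tuples `w` says whether `P G w` if the values of these variables are the entries `w j`, `j ∈ D`. -/
def Definable (r : ℕ) {n : ℕ} {J : Type} (P : SimpleGraph (Fin n) → (J → Fin n) → Prop) : Prop :=
  ∃ (D : Set J) (σ : D → Fin r), Function.Injective σ ∧ ∃ θ : CForm r,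
    ∀ (G : SimpleGraph (Fin n)) (w : J → Fin n) (t : Fin r → Fin n), (∀ j : D, t (σ j) = w j) →
      (θ.Holds G t ↔ P G w)

/-- Quantifier-free formulas in the variables `x i`, `i : Fin m`, over relation symbols `Sym a` of
arity `a`. -/
inductive QF (Sym : ℕ → Type) (m : ℕ) : Type
  | fls : QF Sym m
  | eq (i j : Fin m) : QF Sym m
  | rel (a : ℕ) (R : Sym a) (v : Fin a → Fin m) : QF Sym m
  | not (φ : QF Sym m) : QF Sym m
  | and (φ ψ : QF Sym m) : QF Sym m
  | or (φ ψ : QF Sym m) : QF Sym m
  | imp (φ ψ : QF Sym m) : QF Sym m

namespace QF

variable {Sym : ℕ → Type} {m : ℕ}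

/-- The length: the number of symbols, apart from brackets. -/
def len : QF Sym m → ℕ
  | fls => 1
  | eq _ _ => 3
  | rel a _ _ => a + 1
  | not φ => φ.len + 1
  | and φ ψ => φ.len + ψ.len + 1
  | or φ ψ => φ.len + ψ.len + 1
  | imp φ ψ => φ.len + ψ.len + 1

/-- Truth in the structure with universe `U` and the relations `A` under the assignment `x`. -/
def Holds {U : Type} (A : ∀ a, Sym a → (Fin a → U) → Prop) (x : Fin m → U) : QF Sym m → Prop
  | fls => False
  | eq i j => x i = x j
  | rel a R v => A a R (fun p => x (v p))
  | not φ => ¬ φ.Holds A x
  | and φ ψ => φ.Holds A x ∧ ψ.Holds A x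
  | or φ ψ => φ.Holds A x ∨ ψ.Holds A x
  | imp φ ψ => φ.Holds A x → ψ.Holds A x

end QF

/-- A reduction from the `k`-clique problem on graphs with vertex set `Fin n` to model checking of
`Σ₁`-sentences of length at most `ℓ`, definable in the infinitary logic with counting and `r`
variables.

* The graph `G` is mapped to the relational structure `A(G)` with universe `U G` and relations
  `rel G`.
* The elements of `A(G)` are named by tuples of vertices: for every tag `T` the tuples
  `w : Fin (dim T) → Fin n` with `dom T G w` name elements `nm T G w`, every element has a name, and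
  may have several names. The tags can be used for an arbitrary sort of `numbers`.
* The domains `dom T`, equality of the named elements, and the relations of `A(G)` (as relations
  between the names) are definable with `r` variables, for all tags.
* The sentence `∃ x₁ … x_m ψ` may depend on `G`, in a definable way: for every possible sentence the
  set of the graphs with this sentence is definable with `r` variables.
* `A(G)` satisfies the sentence if and only if `G` has a clique with `k` vertices.

The reduction, in particular the formulas, may depend on `n` and `k` in an arbitrary way. -/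
structure DefinableReduction (n k r ℓ : ℕ) where
  U : SimpleGraph (Fin n) → Type
  Sym : ℕ → Type
  rel : ∀ (G : SimpleGraph (Fin n)) (a : ℕ), Sym a → (Fin a → U G) → Prop
  Tag : Type
  dim : Tag → ℕ
  dom : ∀ T : Tag, SimpleGraph (Fin n) → (Fin (dim T) → Fin n) → Prop
  nm : ∀ (T : Tag) (G : SimpleGraph (Fin n)) (w : Fin (dim T) → Fin n), dom T G w → U G
  surj : ∀ (G : SimpleGraph (Fin n)) (u : U G), ∃ T w h, nm T G w h = u
  dom_def : ∀ T, Definable r (dom T)
  eq_def : ∀ T T', Definable r fun (G : SimpleGraph (Fin n))
    (w : Fin (dim T) ⊕ Fin (dim T') → Fin n) =>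
      ∃ (h : dom T G (w ∘ Sum.inl)) (h' : dom T' G (w ∘ Sum.inr)), nm T G _ h = nm T' G _ h'
  rel_def : ∀ (a : ℕ) (R : Sym a) (T : Fin a → Tag), Definable r fun (G : SimpleGraph (Fin n))
    (w : (Σ p, Fin (dim (T p))) → Fin n) =>
      ∃ h : ∀ p, dom (T p) G (fun q => w ⟨p, q⟩), rel G a R fun p => nm (T p) G _ (h p)
  num : SimpleGraph (Fin n) → ℕ
  sen : ∀ G : SimpleGraph (Fin n), QF Sym (num G)
  sen_def : ∀ (m : ℕ) (ψ : QF Sym m), Definable r fun (G : SimpleGraph (Fin n))
    (_ : Empty → Fin n) => (⟨num G, sen G⟩ : Σ m, QF Sym m) = ⟨m, ψ⟩
  len_le : ∀ G, 2 * num G + (sen G).len ≤ ℓ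
  correct : ∀ G, (∃ x : Fin (num G) → U G, (sen G).Holds (rel G) x) ↔
    ∃ s : Finset (Fin n), G.IsNClique k s

end Pool.Agent.helper89.CL
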