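import Pool.Agent.helper89.CL.Cfi

/-!
# The lower bound for reductions definable in infinitary logic with counting
-/

set_option autoImplicit false

namespace Pool.Agent.helper89.CL

open Finset

/-! ### The two graphs on `Fin n` -/

section two

variable {m a b n : ℕ}

/-- base points of a tuple -/
def HasBase {r : ℕ} (t : Fin r → VV m a b) (i : Fin m) : Prop := ∃ p f, t p = .inl (i, f)

theorem zero_symm (i j : Fin m) : (0 : Fin m → Fin m → ZMod 2) i j = 0 := rfl

/-- the untwisted graph on `Fin n` -/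
def G0 (e : Fin n ≃ VV m a b) : SimpleGraph (Fin n) := (HG (fun _ _ => 0) (fun _ _ => rfl)).comap e

/-- the graph on `Fin n` twisted at `{i, j}` -/
def G1 (e : Fin n ≃ VV m a b) (i j : Fin m) : SimpleGraph (Fin n) :=
  (HG (Dd i j) (Dd_symm i j)).comap e

theorem ZZ_start {r : ℕ} (t : Fin r → VV m a b) (i j : Fin m) (hij : i ≠ j)
    (hi : ¬ HasBase t i) : ZZ (fun _ _ => 0) (Dd i j) t t := by
  refine ⟨fun _ _ => 0, i, j, hij, fun x => ?_, fun x y _ => ?_, fun p => ?_, fun p f h => ?_⟩
  · simp
  · simp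
  · have : ∀ v : VV m a b, v = fl (fun _ _ => 0) v := by
      rintro (⟨x, f⟩ | u)
      · show (Sum.inl (x, f) : VV m a b) = Sum.inl (x, f + fun _ => 0)
        have : (f + fun _ => 0) = f := by funext y; simp
        rw [this]
      · rfl
    exact this (t p)
  · exact hi ⟨p, f, h⟩

/-- **Indistinguishability.** -/
theorem transfer {r : ℕ} (hr : r < m) (e : Fin n ≃ VV m a b) (i j : Fin m) (hij : i ≠ j)
    (θ : CForm r) (t : Fin r → Fin n)
    (h : ¬ (HasBase (fun p => e (t p)) i ∧ HasBase (fun p => e (t p)) j)) :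
    θ.Holds (G0 e) t ↔ θ.Holds (G1 e i j) t := by
  unfold G0 G1
  rw [holds_iso, holds_iso]
  refine holds_of_game _ _ (ZZ (fun _ _ => 0) (Dd i j)) ?_ ?_ ?_ θ _ _ ?_
  · intro t t' hZ p q
    exact ZZ_adj t t' hZ p q
  · intro t t' hZ p q
    exact ZZ_eq t t' hZ p q
  · intro t t' hZ p
    exact ZZ_bij hr t t' hZ p
  · by_cases hi : HasBase (fun p => e (t p)) i
    · rw [Dd_comm]
      exact ZZ_start _ j i hij.symm fun hj => h ⟨hi, hj⟩
    · exact ZZ_start _ i j hij hi

/-! ### Cliques -/

theorem G0_clique (e : Fin n ≃ VV m a b) : ∃ s : Finset (Fin n), (G0 e).IsNClique (m + a) s := by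
  let F : Fin m ⊕ Fin a → VV m a b := Sum.elim (fun i => .inl (i, fun _ => 0)) (fun u => .inr (.inl u))
  have hF : Function.Injective F := by
    rintro (i | u) (j | v) h
    · simp only [F, Sum.elim_inl, Sum.inl.injEq, Prod.mk.injEq, and_true] at h
      rw [h]
    · simp [F] at h
    · simp [F] at h
    · simp only [F, Sum.elim_inr, Sum.inr.injEq, Sum.inl.injEq] at h
      rw [h]
  have hadj : ∀ x y, x ≠ y → Ad (fun _ _ => 0) (F x) (F y) := by
    have hval : ∀ i : Fin m, Val i (fun _ => 0) := by
      intro i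
      unfold Val
      simp
    rintro (i | u) (j | v) h
    · exact ⟨fun h' => h (by rw [h']), hval i, hval j, by simp⟩
    · trivial
    · trivial
    · exact fun h' => h (by rw [h'])
  refine ⟨(univ.map ⟨F, hF⟩).map e.symm.toEmbedding, ?_, ?_⟩
  · intro x hx y hy hxy
    rw [mem_coe, mem_map] at hx hy
    obtain ⟨x', hx', rfl⟩ := hx
    obtain ⟨y', hy', rfl⟩ := hy
    obtain ⟨u, -, rfl⟩ := mem_map.1 hx'
    obtain ⟨v, -, rfl⟩ := mem_map.1 hy'
    show Ad (fun _ _ => 0) (e (e.symm (F u))) (e (e.symm (F v)))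
    rw [Equiv.apply_symm_apply, Equiv.apply_symm_apply]
    refine hadj u v fun h' => hxy ?_
    rw [h']
  · rw [card_map, card_map, card_univ, Fintype.card_sum, Fintype.card_fin, Fintype.card_fin]

/-- the colour of a vertex -/
def col : VV m a b → Option (Fin m ⊕ Fin a)
  | .inl (i, _) => some (.inl i)
  | .inr (.inl u) => some (.inr u)
  | .inr (.inr _) => none

theorem col_adj (τ : Fin m → Fin m → ZMod 2) (x y : VV m a b) (h : Ad τ x y) :
    col x ≠ none ∧ col x ≠ col y := by
  rcases x with ⟨i, f⟩ | u | u <;> rcases y with ⟨j, g⟩ | v | v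
  · refine ⟨by simp [col], fun h' => h.1 ?_⟩
    simpa [col] using h'
  · exact ⟨by simp [col], by simp [col]⟩
  · exact h.elim
  · exact ⟨by simp [col], by simp [col]⟩
  · refine ⟨by simp [col], fun h' => h ?_⟩
    simpa [col] using h'
  all_goals exact h.elim

theorem parity (F : Fin m → Fin m → ZMod 2) (hF : ∀ i, ∑ y ∈ univ.erase i, F i y = 0)
    (i j : Fin m) (hij : i ≠ j) : ¬ ∀ x y, x ≠ y → F x y + F y x = Dd i j x y := by
  intro h
  wlog hlt : i < j generalizing i j
  · refine this j i hij.symm (fun x y hxy => ?_) (lt_of_le_of_ne (not_lt.1 hlt) hij.symm)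
    rw [h x y hxy, Dd_comm]
  have h1 : ∑ x : Fin m, ∑ y : Fin m, (if x < y then F x y + F y x else 0) =
      ∑ x : Fin m, ∑ y ∈ univ.erase x, F x y := by
    have e1 : ∑ x : Fin m, ∑ y : Fin m, (if x < y then F x y + F y x else 0) =
        (∑ x : Fin m, ∑ y : Fin m, (if x < y then F x y else 0)) +
          ∑ x : Fin m, ∑ y : Fin m, (if x < y then F y x else 0) := by
      rw [← sum_add_distrib]
      refine sum_congr rfl fun x _ => ?_
      rw [← sum_add_distrib]
      refine sum_congr rfl fun y _ => ?_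
      split_ifs <;> simp
    have e2 : ∑ x : Fin m, ∑ y : Fin m, (if x < y then F y x else 0) =
        ∑ x : Fin m, ∑ y : Fin m, (if y < x then F x y else 0) := by
      rw [sum_comm]
    rw [e1, e2, ← sum_add_distrib]
    refine sum_congr rfl fun x _ => ?_
    rw [← sum_add_distrib, ← Finset.filter_ne', sum_filter]
    refine sum_congr rfl fun y _ => ?_
    rcases lt_trichotomy x y with h1 | h1 | h1
    · have h2 : ¬ y < x := not_lt.2 h1.le
      have h3 : y ≠ x := h1.ne'
      simp [h1, h2, h3]
    · subst h1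
      simp
    · have h2 : ¬ x < y := not_lt.2 h1.le
      have h3 : y ≠ x := h1.ne
      simp [h1, h2, h3]
  have h2 : ∑ x : Fin m, ∑ y ∈ univ.erase x, F x y = 0 := sum_eq_zero fun x _ => hF x
  have h3 : ∑ x : Fin m, ∑ y : Fin m, (if x < y then F x y + F y x else 0) = 1 := by
    have h4 : ∀ x y : Fin m, (if x < y then F x y + F y x else 0) =
        if x = i ∧ y = j then 1 else 0 := by
      intro x y
      by_cases hxy : x < y
      · rw [if_pos hxy, h x y hxy.ne]
        unfold Dd
        by_cases h5 : x = i ∧ y = j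
        · rw [if_pos h5, if_pos (Or.inl h5)]
        · rw [if_neg h5, if_neg]
          rintro (h6 | h6)
          · exact h5 h6
          · rw [h6.1, h6.2] at hxy
            exact absurd hxy (not_lt.2 hlt.le)
      · rw [if_neg hxy, if_neg]
        rintro ⟨h5, h6⟩
        rw [h5, h6] at hxy
        exact hxy hlt
    simp only [h4]
    rw [sum_eq_single i]
    · rw [sum_eq_single j]
      · simp
      · intro y _ hy
        simp [hy]
      · intro h7
        exact absurd (mem_univ j) h7
    · intro x _ hx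
      exact sum_eq_zero fun y _ => by simp [hx]
    · intro h7
      exact absurd (mem_univ i) h7
  rw [h1, h2] at h3
  exact absurd h3 (by decide)

theorem G1_no_clique (e : Fin n ≃ VV m a b) (i j : Fin m) (hij : i ≠ j) (s : Finset (Fin n)) :
    ¬ (G1 e i j).IsNClique (m + a) s := by
  intro hs
  have hm : 2 ≤ m := by
    have h1 := i.2
    have h2 := j.2
    have h3 : (i : ℕ) ≠ j := fun h => hij (Fin.ext h)
    omega
  have hadj : ∀ x ∈ s, ∀ y ∈ s, x ≠ y → Ad (Dd i j) (e x) (e y) := by
    intro x hx y hy hxy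
    exact hs.1 hx hy hxy
  have hcard : s.card = m + a := hs.2
  have hne : ∀ x ∈ s, ∃ y ∈ s, x ≠ y := by
    intro x hx
    by_contra hcon
    push Not at hcon
    have : s.card ≤ 1 := card_le_one.2 fun u hu v hv => by rw [← hcon u hu, ← hcon v hv]
    omega
  have hnone : ∀ x ∈ s, col (e x) ≠ none := by
    intro x hx
    obtain ⟨y, hy, hxy⟩ := hne x hx
    exact (col_adj _ _ _ (hadj x hx y hy hxy)).1
  have hinj : Set.InjOn (fun x => col (e x)) (s : Set (Fin n)) := by
    intro x hx y hy hxy
    by_contra h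
    exact (col_adj _ _ _ (hadj x hx y hy h)).2 hxy
  have himg : s.image (fun x => col (e x)) = (univ : Finset (Fin m ⊕ Fin a)).image some := by
    apply eq_of_subset_of_card_le
    · intro c hc
      obtain ⟨x, hx, rfl⟩ := mem_image.1 hc
      obtain ⟨d, hd⟩ := Option.ne_none_iff_exists'.1 (hnone x hx)
      simp only [hd]
      exact mem_image.2 ⟨d, mem_univ _, rfl⟩
    · rw [card_image_of_injOn hinj, hcard, card_image_of_injective _ (Option.some_injective _),
        card_univ, Fintype.card_sum, Fintype.card_fin, Fintype.card_fin]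
  have hex : ∀ x : Fin m, ∃ f, e.symm (.inl (x, f)) ∈ s := by
    intro x
    have h1 : some (Sum.inl x) ∈ s.image (fun x => col (e x)) := by
      rw [himg]
      exact mem_image.2 ⟨_, mem_univ _, rfl⟩
    obtain ⟨v, hv, hv2⟩ := mem_image.1 h1
    rcases hev : e v with ⟨y, f⟩ | u | u
    · rw [hev] at hv2
      have hy : y = x := by simpa [col] using hv2
      subst hy
      refine ⟨f, ?_⟩
      rw [← hev, Equiv.symm_apply_apply]
      exact hv
    · rw [hev] at hv2
      simp [col] at hv2
    · rw [hev] at hv2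
      simp [col] at hv2
  choose F hF using hex
  have hpair : ∀ x y, x ≠ y → x ≠ y ∧ Val x (F x) ∧ Val y (F y) ∧ F x y + F y x = Dd i j x y := by
    intro x y hxy
    have hne : e.symm (.inl (x, F x)) ≠ e.symm (.inl (y, F y)) := by
      intro h
      have := e.symm.injective h
      simp only [Sum.inl.injEq, Prod.mk.injEq] at this
      exact hxy this.1
    have h1 := hadj _ (hF x) _ (hF y) hne
    rw [Equiv.apply_symm_apply, Equiv.apply_symm_apply] at h1
    exact h1
  refine parity F ?_ i j hij fun x y hxy => (hpair x y hxy).2.2.2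
  intro x
  have : ∃ y : Fin m, x ≠ y := by
    by_cases h : x = i
    · exact ⟨j, h ▸ hij⟩
    · exact ⟨i, h⟩
  obtain ⟨y, hy⟩ := this
  exact (hpair x y hy).2.1

end two

end Pool.Agent.helper89.CL
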