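import Pool.Agent.helper47.CL.SpecD

/-!
# Row RB: the step for `SB`
-/

set_option autoImplicit false

namespace Pool.Agent.helper41.CL

open Finset

theorem RB_L (h4 : ZL_stmt) (N : ℕ) (hA : SA N) (hC : SC N) (α : Type) [DecidableEq α] (V : Finset α)
    (E : Finset (Finset α)) (q r : ℕ) (hG : Gr V E) (hV : #V = 2 * (q + 1) + (r + 1)) (hN : #V ≤ N + 1)
    (hr : r + 1 ≤ q + 2) (hE : #E + 2 = (q + 1) + 2 * (r + 1)) (x a : α) (hL : Lf E x a) :
    2 * 3 ^ (r + 1) * 2 ^ (q + 1) ≤ 3 * 2 ^ (r + 1) * #(ind V E (q + 1 + 1)) := by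
  obtain ⟨g1, g2, v1, v2, e1, e2, hk⟩ := h4 α V E x a hG hL
  have k := hk (q + 1)
  have s1 := hC α (V \ {x, a}) (av E {x, a}) q (r + 1) g1 (by omega) (by omega) (by omega) (by omega)
  have s2 := hA α (V.erase x) (av E {x}) (q + 1) r g2 (by omega) (by omega) (by omega) (by omega)
  have k' := Nat.mul_le_mul_left (6 * 2 ^ r) k
  rw [pow_succ] at s1 s2 ⊢
  rw [pow_succ] at s1 ⊢
  rw [pow_succ]
  nlinarith [s1, s2, k']

theorem RB_D (h5 : ZW_stmt) (N : ℕ) (hB : SB N) (α : Type) [DecidableEq α] (V : Finset α)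
    (E : Finset (Finset α)) (q r : ℕ) (hG : Gr V E) (hV : #V = 2 * (q + 1) + (r + 1)) (hN : #V ≤ N + 1)
    (hr : r + 1 ≤ q + 2) (hE : #E + 2 = (q + 1) + 2 * (r + 1)) (p a b : α) (hT : Tw E p a b)
    (ha : 2 ≤ #(inc E a)) :
    2 * 3 ^ (r + 1) * 2 ^ (q + 1) ≤ 3 * 2 ^ (r + 1) * #(ind V E (q + 1 + 1)) := by
  obtain ⟨g1, g2, v1, v2, e2, e1, -, hk⟩ := h5 α V E p a b hG hT
  have e1' := e1 (Or.inl ha)
  have k := hk (q + 1)
  have s1 := hB α (V \ {p, a, b}) (av E {p, a, b}) q r g1 (by omega) (by omega) (by omega) (by omega)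
  have s2 := hB α (V.erase p) (av E {p}) (q + 1) r g2 (by omega) (by omega) (by omega) (by omega)
  have k' := Nat.mul_le_mul_left (6 * 2 ^ r) k
  have p1 : (3 : ℕ) ^ (r + 1) = 3 ^ r * 3 := pow_succ _ _
  have p2 : (2 : ℕ) ^ (q + 1) = 2 ^ q * 2 := pow_succ _ _
  have p3 : (2 : ℕ) ^ (r + 1) = 2 ^ r * 2 := pow_succ _ _
  rw [p2] at s2
  rw [p1, p2, p3]
  nlinarith [s1, s2, k']

theorem RB_K (h3 : ZK_stmt) (N : ℕ) (hB : SB N) (α : Type) [DecidableEq α] (V : Finset α)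
    (E : Finset (Finset α)) (q r : ℕ) (hG : Gr V E) (hV : #V = 2 * (q + 1) + (r + 1)) (hN : #V ≤ N + 1)
    (hr : r + 1 ≤ q + 1) (hE : #E + 2 = (q + 1) + 2 * (r + 1)) (x y : α) (hK : Kt E x y) :
    2 * 3 ^ (r + 1) * 2 ^ (q + 1) ≤ 3 * 2 ^ (r + 1) * #(ind V E (q + 1 + 1)) := by
  obtain ⟨g1, v1, e1, hk⟩ := h3 α V E x y hG hK
  have k := hk (q + 1)
  have s1 := hB α (V \ {x, y}) (av E {x, y}) q (r + 1) g1 (by omega) (by omega) (by omega) (by omega)
  have k2 : 2 * #(ind (V \ {x, y}) (av E {x, y}) (q + 1)) ≤ #(ind V E (q + 1 + 1)) := by omega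
  have k' := Nat.mul_le_mul_left (3 * 2 ^ (r + 1)) k2
  have p2 : (2 : ℕ) ^ (q + 1) = 2 ^ q * 2 := pow_succ _ _
  rw [p2]
  nlinarith [s1, k']

theorem RB (h1 : BF_stmt) (h2 : ZR_stmt) (h3 : ZK_stmt) (h4 : ZL_stmt) (h5 : ZW_stmt) (h6 : ZI_stmt)
    (h8 : ZS_stmt) (h9 : SD_stmt) : RB_stmt := by
  intro N hA hB hC hC1 α _ V E q r hG hV hN hr hE
  by_cases hE3 : #E + 3 ≤ q + 2 * r
  · have s := hC1 α V E q r hG hV hN (by omega) hE3
    nlinarith [s, Nat.zero_le (3 ^ r * 2 ^ q)]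
  have hE2 : #E + 2 = q + 2 * r := by omega
  rcases Nat.eq_zero_or_pos r with hr0 | hr0
  · subst hr0
    have s := (h2 α V E q hG (by omega)).2.1 (by omega)
    simpa using s
  rcases Nat.eq_zero_or_pos q with hq0 | hq0
  · subst hq0
    have hr1 : r = 1 := by omega
    subst hr1
    have hE0 : E = ∅ := by
      rw [← card_eq_zero]
      omega
    subst hE0
    have hV1 : #V = 1 := by omega
    have hmem : V ∈ ind V ∅ (0 + 1) := by
      unfold ind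
      rw [mem_filter, mem_powersetCard]
      exact ⟨⟨Subset.refl _, by omega⟩, fun e he => absurd he (notMem_empty e)⟩
    have hc : 0 < #(ind V ∅ (0 + 1)) := card_pos.2 ⟨V, hmem⟩
    have : 2 * 3 ^ 1 * 2 ^ 0 = 6 := by norm_num
    have h22 : 3 * 2 ^ 1 = 6 := by norm_num
    rw [this, h22]
    omega
  obtain ⟨q, rfl⟩ : ∃ q', q = q' + 1 := ⟨q - 1, by omega⟩
  obtain ⟨r, rfl⟩ : ∃ r', r = r' + 1 := ⟨r - 1, by omega⟩
  by_cases hL : ∃ x a, Lf E x a
  · obtain ⟨x, a, hL⟩ := hL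
    exact RB_L h4 N hA hC α V E q r hG hV hN (by omega) hE2 x a hL
  rcases h8 α V E hG with h | ⟨⟨y, hy, hy2⟩, a, ha⟩ | ⟨p, a, b, hT, ha, hb⟩ | h | h
  · exact absurd h hL
  · obtain ⟨E', hG', hE', ⟨x, b, hL'⟩, hle⟩ := h6 α V E a y hG hy hy2 ha hL
    have s := RB_L h4 N hA hC α V E' q r hG' hV hN (by omega) (by omega) x b hL'
    exact s.trans (Nat.mul_le_mul_left _ (hle _))
  · exact RB_D h5 N hB α V E q r hG hV hN (by omega) hE2 p a b hT ha
  · -- all degrees at most 1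
    have hs := h9 α V E hG
    have hs1 : ∑ x ∈ V, #(inc E x) ≤ ∑ x ∈ V, 1 := sum_le_sum fun x _ => h x
    rw [sum_const, smul_eq_mul, mul_one] at hs1
    have hr1 : r = 0 := by omega
    have hEpos : 0 < #E := by omega
    obtain ⟨e, he⟩ := card_pos.1 hEpos
    obtain ⟨x, y, hxy, rfl⟩ := card_eq_two.1 (hG e he).2
    have hK : Kt E x y := by
      refine ⟨hxy, he, ?_⟩
      intro e' he' hor
      rcases hor with hx | hx
      · exact card_le_one.1 (h x) e' (mem_filter.2 ⟨he', hx⟩) {x, y} (mem_filter.2 ⟨he, by simp⟩)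
      · exact card_le_one.1 (h y) e' (mem_filter.2 ⟨he', hx⟩) {x, y} (mem_filter.2 ⟨he, by simp⟩)
    exact RB_K h3 N hB α V E q r hG hV hN (by omega) hE2 x y hK
  · by_cases hrq : r + 1 ≤ q + 1
    · have hK : ∃ x y, Kt E x y := by
        by_contra hcon
        have hall : ∀ x ∈ V, 3 ≤ #(inc E x) := by
          intro x hx
          rcases h.2 x hx with h' | ⟨y, h'⟩
          · exact h'
          · exact absurd ⟨x, y, h'⟩ hcon
        have hs := h9 α V E hG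
        have hs1 : ∑ x ∈ V, 3 ≤ ∑ x ∈ V, #(inc E x) := sum_le_sum hall
        rw [sum_const, smul_eq_mul] at hs1
        omega
      obtain ⟨x, y, hK⟩ := hK
      exact RB_K h3 N hB α V E q r hG hV hN hrq hE2 x y hK
    · have hrq' : r = q + 1 := by omega
      subst hrq'
      have s := h1 N hA hC α V E (q + 1) hG (by omega) hN (by omega) (by omega) h
      have k' := Nat.mul_le_mul_left (3 * 2 ^ (q + 1 + 1)) s
      have p1 : (3 : ℕ) ^ (q + 1 + 1) = 3 ^ (q + 1) * 3 := pow_succ _ _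
      have p2 : (2 : ℕ) ^ (q + 1 + 1) = 2 ^ (q + 1) * 2 := pow_succ _ _
      rw [p1]
      rw [p2] at k' ⊢
      nlinarith [k']

end Pool.Agent.helper41.CL
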